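import Pool.Agent.Helper80.MB.Core

/-!
# The graph on 29 vertices and the checkers of the strategy trees

Two copies of a graph with 14 vertices (`0, ..., 13` and `14, ..., 27`), and the vertex `28`, which is
joined to `6` and `20`. Sets of vertices are coded by numbers (`fs`).
-/

set_option autoImplicit false

namespace Pool.Agent.Helper80.MB

open H95.MB Finset

/-- the closed neighbourhoods -/
def NL : List ℕ :=
  [7297, 8450, 9732, 776, 720, 14368, 268435536, 145, 266, 540, 1029, 2081, 4129, 8230, 119554048, 138444800, 159449088, 12713984, 11796480, 235405312, 269746176, 2375680, 4358144, 8847360, 16859136, 34095104, 67649536, 134840320, 269484096]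

def N (u : ℕ) : ℕ := NL.getD u 0

/-- the set with the code `m` -/
def fs (m : ℕ) : Finset (Fin 29) := univ.filter fun i => m.testBit i

def nb (u : Fin 29) : Finset (Fin 29) := fs (N u)

theorem mem_fs {m : ℕ} {i : Fin 29} : i ∈ fs m ↔ m.testBit i = true := by
  simp [fs]

theorem N_sym : ∀ i j : Fin 29, (N i).testBit j = (N j).testBit i := by decide +kernel

/-- the graph -/
def GG : SimpleGraph (Fin 29) where
  Adj i j := i ≠ j ∧ (N i).testBit j = true
  symm := ⟨fun i j h => ⟨h.1.symm, by rw [N_sym]; exact h.2⟩⟩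
  loopless := ⟨fun i h => h.1 rfl⟩

theorem N_self : ∀ i : Fin 29, (N i).testBit i = true := by decide +kernel

theorem isNb : IsNb GG nb := by
  intro u w
  rw [nb, mem_fs]
  by_cases h : w = u
  · subst h
    simp [N_self]
  · have : GG.Adj w u ↔ (w ≠ u ∧ (N w).testBit u = true) := Iff.rfl
    rw [this, N_sym]
    simp [h]

def ins (m x : ℕ) : ℕ := m ||| 2 ^ x
def era (m x : ℕ) : ℕ := m ^^^ (m &&& 2 ^ x)
def dif (m k : ℕ) : ℕ := m ^^^ (m &&& k)
def sub (a b : ℕ) : Bool := (a &&& b) == a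

theorem fs_ins (m : ℕ) (x : Fin 29) : fs (ins m x) = insert x (fs m) := by
  ext i
  rw [mem_fs, ins, Finset.mem_insert, mem_fs, Nat.testBit_or, Nat.testBit_two_pow]
  by_cases h : (x : ℕ) = i
  · have : i = x := Fin.ext h.symm
    simp [this]
  · have : i ≠ x := fun h' => h (by rw [h'])
    simp [this, h]

theorem fs_era (m : ℕ) (x : Fin 29) : fs (era m x) = (fs m).erase x := by
  ext i
  rw [mem_fs, era, Finset.mem_erase, mem_fs, Nat.testBit_xor, Nat.testBit_and,
    Nat.testBit_two_pow]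
  by_cases h : (x : ℕ) = i
  · have : i = x := Fin.ext h.symm
    simp [this]
  · have : i ≠ x := fun h' => h (by rw [h'])
    simp [this, h]

theorem fs_dif (m k : ℕ) : fs (dif m k) = fs m \ fs k := by
  ext i
  rw [mem_fs, dif, Finset.mem_sdiff, mem_fs, mem_fs, Nat.testBit_xor, Nat.testBit_and]
  cases m.testBit i <;> cases k.testBit i <;> simp

theorem fs_or (m k : ℕ) : fs (m ||| k) = fs m ∪ fs k := by
  ext i
  rw [mem_fs, Finset.mem_union, mem_fs, mem_fs, Nat.testBit_or]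
  simp

theorem fs_and (m k : ℕ) : fs (m &&& k) = fs m ∩ fs k := by
  ext i
  rw [mem_fs, Finset.mem_inter, mem_fs, mem_fs, Nat.testBit_and]
  simp

theorem fs_zero : fs 0 = ∅ := by
  ext i
  rw [mem_fs]
  simp

theorem fs_sub {a b : ℕ} (h : sub a b = true) : fs a ⊆ fs b := by
  rw [sub, beq_iff_eq] at h
  rw [← h, fs_and]
  exact Finset.inter_subset_right

/-! ### Staller -/

inductive MT
  | wn (u : ℕ)
  | th (x u y : ℕ) (s : MT)
  | ge (x : ℕ) (s : MT)
  | al (s s' : MT)

def MT.f : MT → ℕ → Bool × ℕ × ℕ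
  | .wn u, S => (decide (u < 29) && sub (N u) S, 0, 0)
  | .th x u y s, S =>
    (decide (x < 29 ∧ u < 29 ∧ y < 29 ∧ x ≠ y) && (s.f (ins S x)).1 &&
      sub (N u) (ins (ins S x) y) && !((s.f (ins S x)).2.1.testBit y) &&
      !((s.f (ins S x)).2.2.testBit x),
      ins (ins (s.f (ins S x)).2.2 x) y, ins (ins (s.f (ins S x)).2.2 x) y)
  | .ge x s, S =>
    (decide (x < 29) && (s.f (ins S x)).1 && (s.f (ins S x)).2.1 == 0 &&
      !((s.f (ins S x)).2.2.testBit x), ins (s.f (ins S x)).2.2 x, ins (s.f (ins S x)).2.2 x)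
  | .al s s', S => ((s.f S).1 && (s'.f S).1, (s.f S).2.1 &&& (s'.f S).2.1,
      (s.f S).2.2 ||| (s'.f S).2.2)

theorem MT.sound (c : MT) : ∀ S : ℕ, (c.f S).1 = true → ∀ z : Fin 29, z ∉ fs (c.f S).2.1 →
    MW nb (fs S) ((fs (c.f S).2.2).erase z) := by
  induction c with
  | wn u =>
    intro S h z _
    simp only [MT.f, Bool.and_eq_true, decide_eq_true_eq] at h
    exact .won ⟨u, h.1⟩ (fs_sub h.2)
  | th x u y s ih =>
    intro S h z hz
    simp only [MT.f, Bool.and_eq_true, decide_eq_true_eq, Bool.not_eq_true'] at h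
    obtain ⟨⟨⟨⟨⟨hx, hu, hy, hxy⟩, h1⟩, h2⟩, h3⟩, h4⟩ := h
    simp only [MT.f] at hz ⊢
    have e1 := fs_ins S ⟨x, hx⟩
    have e2 := fs_ins (s.f (ins S x)).2.2 ⟨x, hx⟩
    have e3 := fs_ins (ins (s.f (ins S x)).2.2 x) ⟨y, hy⟩
    have e4 := fs_ins (ins S x) ⟨y, hy⟩
    simp only at e1 e2 e3 e4
    rw [Finset.erase_eq_of_notMem hz, e3, e2]
    have hw : nb ⟨u, hu⟩ ⊆ insert (⟨y, hy⟩ : Fin 29) (insert ⟨x, hx⟩ (fs S)) := by
      rw [← e1, ← e4]
      exact fs_sub h2
    have hxO : (⟨x, hx⟩ : Fin 29) ∉ fs (s.f (ins S x)).2.2 := by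
      rw [mem_fs]; simpa using h4
    have hyA : (⟨y, hy⟩ : Fin 29) ∉ fs (s.f (ins S x)).2.1 := by
      rw [mem_fs]; simpa using h3
    refine .step ⟨x, hx⟩ (by simp) fun z' => ?_
    by_cases hz' : z' = ⟨y, hy⟩
    · subst hz'
      have := ih (ins S x) h1 ⟨y, hy⟩ hyA
      rw [e1] at this
      refine this.mono le_rfl ?_
      intro i hi
      rw [Finset.mem_erase] at hi
      simp only [Finset.mem_erase, Finset.mem_insert]
      exact ⟨hi.1, fun h => hxO (h ▸ hi.2), Or.inr (Or.inr hi.2)⟩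
    · refine .step ⟨y, hy⟩ ?_ fun z'' => .won ⟨u, hu⟩ hw
      simp only [Finset.mem_erase, Finset.mem_insert]
      refine ⟨fun h => hz' h.symm, ?_, Or.inl trivial⟩
      intro h
      exact hxy (congrArg Fin.val h).symm
  | ge x s ih =>
    intro S h z hz
    simp only [MT.f, Bool.and_eq_true, decide_eq_true_eq, Bool.not_eq_true', beq_iff_eq] at h
    obtain ⟨⟨⟨hx, h1⟩, h2⟩, h3⟩ := h
    simp only [MT.f] at hz ⊢
    have e1 := fs_ins S ⟨x, hx⟩
    have e2 := fs_ins (s.f (ins S x)).2.2 ⟨x, hx⟩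
    simp only at e1 e2
    rw [Finset.erase_eq_of_notMem hz, e2]
    have hxO : (⟨x, hx⟩ : Fin 29) ∉ fs (s.f (ins S x)).2.2 := by
      rw [mem_fs]; simpa using h3
    refine .step ⟨x, hx⟩ (by simp) fun z' => ?_
    have := ih (ins S x) h1 z' (by rw [h2, fs_zero]; simp)
    rw [e1] at this
    refine this.mono le_rfl ?_
    intro i hi
    rw [Finset.mem_erase] at hi
    simp only [Finset.mem_erase, Finset.mem_insert]
    exact ⟨hi.1, fun h => hxO (h ▸ hi.2), Or.inr hi.2⟩
  | al s s' ih ih' =>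
    intro S h z hz
    simp only [MT.f, Bool.and_eq_true] at h
    simp only [MT.f] at hz ⊢
    rw [fs_and, Finset.mem_inter, not_and_or] at hz
    rw [fs_or]
    rcases hz with hz | hz
    · exact (ih S h.1 z hz).mono le_rfl (Finset.erase_subset_erase z Finset.subset_union_left)
    · exact (ih' S h.2 z hz).mono le_rfl (Finset.erase_subset_erase z Finset.subset_union_right)

inductive TC
  | tn
  | nd (x u : ℕ) (m : MT) (k : TC)
  | st
  | ch (y : ℕ) (t k : TC)

def TC.isT : TC → Bool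
  | .tn => true
  | .nd _ _ _ _ => true
  | _ => false

def TC.r : TC → ℕ → ℕ → ℕ → Bool
  | .tn, _, A, _ => A == 0
  | .nd x u m k, S, A, _ => decide (x < 29 ∧ u < 29) && A.testBit x &&
      sub (Pool.Agent.Helper80.MB.N u) (S ||| A) && (m.f (ins S x)).1 &&
      sub (m.f (ins S x)).2.2 (era A x) && !k.isT &&
      k.r (ins S x) (era A x) (m.f (ins S x)).2.1
  | .st, _, _, M => M == 0
  | .ch y t k, S, A, M => decide (y < 29) && A.testBit y && t.isT && t.r S (era A y) 0 && !k.isT &&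
      k.r S A (era M y)

theorem TC.sound (c : TC) : ∀ S A M : ℕ, c.r S A M = true →
    (c.isT = true → TT nb (fs S) (fs A)) ∧
    (c.isT = false → ∀ y ∈ fs M, y ∈ fs A ∧ TT nb (fs S) ((fs A).erase y)) := by
  induction c with
  | tn =>
    intro S A M h
    refine ⟨fun _ => ?_, fun h' => by simp [TC.isT] at h'⟩
    simp only [TC.r, beq_iff_eq] at h
    rw [h, fs_zero]
    exact .nil
  | st =>
    intro S A M h
    refine ⟨fun h' => by simp [TC.isT] at h', fun _ y hy => ?_⟩
    simp only [TC.r, beq_iff_eq] at h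
    rw [h, fs_zero] at hy
    simp at hy
  | nd x u m k ih =>
    intro S A M h
    refine ⟨fun _ => ?_, fun h' => by simp [TC.isT] at h'⟩
    simp only [TC.r, Bool.and_eq_true, decide_eq_true_eq, Bool.not_eq_true'] at h
    obtain ⟨⟨⟨⟨⟨⟨⟨hx, hu⟩, h1⟩, h2⟩, h3⟩, h4⟩, h5⟩, h6⟩ := h
    have e1 := fs_ins S ⟨x, hx⟩
    have e2 := fs_era A ⟨x, hx⟩
    simp only at e1 e2
    have hc := (ih _ _ _ h6).2 h5
    rw [e1, e2] at hc
    refine .step ⟨x, hx⟩ ⟨u, hu⟩ (fs (m.f (ins S x)).2.1) (by rw [mem_fs]; exact h1) ?_ ?_ ?_ ?_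
    · rw [← fs_or]
      exact fs_sub h2
    · intro y hy
      have := m.sound (ins S x) h3 y hy
      rw [e1] at this
      refine this.mono le_rfl (Finset.erase_subset_erase y ?_)
      rw [← e2]
      exact fs_sub h4
    · intro y hy
      exact (hc y hy).1
    · intro y hy
      exact (hc y hy).2
  | ch y t k iht ihk =>
    intro S A M h
    refine ⟨fun h' => by simp [TC.isT] at h', fun _ z hz => ?_⟩
    simp only [TC.r, Bool.and_eq_true, decide_eq_true_eq, Bool.not_eq_true'] at h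
    obtain ⟨⟨⟨⟨⟨hy, h1⟩, h2⟩, h3⟩, h4⟩, h5⟩ := h
    have e1 := fs_era A ⟨y, hy⟩
    have e2 := fs_era M ⟨y, hy⟩
    simp only at e1 e2
    by_cases hzy : z = ⟨y, hy⟩
    · subst hzy
      refine ⟨by rw [mem_fs]; exact h1, ?_⟩
      rw [← e1]
      exact (iht _ _ _ h3).1 h2
    · refine (ihk _ _ _ h5).2 h4 z ?_
      rw [e2, Finset.mem_erase]
      exact ⟨hzy, hz⟩

/-! ### Dominator -/

inductive BC
  | lf (ps : List (ℕ × ℕ))
  | nd (k : BC)
  | st
  | ch (x y : ℕ) (t k : BC)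

def BC.isT : BC → Bool
  | .lf _ => true
  | .nd _ => true
  | _ => false

def pc : List (ℕ × ℕ) → ℕ → ℕ → Bool
  | [], _, R => R == 0
  | p :: ps, A, R => decide (p.1 < 29 ∧ p.2 < 29 ∧ p.1 ≠ p.2) && A.testBit p.1 && A.testBit p.2 &&
      pc ps (era (era A p.1) p.2) (dif R (N p.1 &&& N p.2))

def BC.r : BC → ℕ → ℕ → ℕ → Bool
  | .lf ps, A, R, _ => pc ps A R
  | .nd k, A, R, _ => !(A == 0) && decide (A < 2 ^ 29) && !k.isT && k.r A R A
  | .st, _, _, X => X == 0
  | .ch x y t k, A, R, X => decide (x < 29 ∧ y < 29 ∧ x ≠ y) && A.testBit x && A.testBit y && t.isT &&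
      t.r (era (era A x) y) (dif R (N y)) 0 && !k.isT && k.r A R (era X x)

theorem pc_sound : ∀ (ps : List (ℕ × ℕ)) (A R : ℕ), pc ps A R = true →
    ∃ (P : Finset (Fin 29)) (π : Fin 29 → Fin 29), P ⊆ fs A ∧
      (∀ x ∈ P, π x ∈ P ∧ π x ≠ x ∧ π (π x) = x) ∧
      ∀ u ∈ fs R, ∃ p ∈ P, p ∈ nb u ∧ π p ∈ nb u := by
  intro ps
  induction ps with
  | nil =>
    intro A R h
    simp only [pc, beq_iff_eq] at h
    refine ⟨∅, id, by simp, by simp, ?_⟩
    rw [h, fs_zero]
    simp
  | cons pq ps ih =>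
    obtain ⟨p, q⟩ := pq
    intro A R h
    simp only [pc, Bool.and_eq_true, decide_eq_true_eq] at h
    obtain ⟨⟨⟨⟨hp, hq, hpq⟩, h1⟩, h2⟩, h3⟩ := h
    obtain ⟨P, π, hP, hπ, hR⟩ := ih _ _ h3
    have e1 := fs_era A ⟨p, hp⟩
    have e2 := fs_era (era A p) ⟨q, hq⟩
    simp only at e1 e2
    rw [e2, e1] at hP
    rw [fs_dif, fs_and] at hR
    have hne : (⟨p, hp⟩ : Fin 29) ≠ ⟨q, hq⟩ := fun h => hpq (congrArg Fin.val h)
    generalize hp' : (⟨p, hp⟩ : Fin 29) = p' at hP hne e1
    generalize hq' : (⟨q, hq⟩ : Fin 29) = q' at hP hne e2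
    have hpA : p' ∈ fs A := by rw [← hp', mem_fs]; exact h1
    have hqA : q' ∈ fs A := by rw [← hq', mem_fs]; exact h2
    have hpP : p' ∉ P := fun h => by
      have := hP h
      simp at this
    have hqP : q' ∉ P := fun h => by
      have := hP h
      simp at this
    refine ⟨insert p' (insert q' P), fun x => if x = p' then q' else if x = q' then p' else π x,
      ?_, ?_, ?_⟩
    · rw [Finset.insert_subset_iff, Finset.insert_subset_iff]
      exact ⟨hpA, hqA, hP.trans ((Finset.erase_subset _ _).trans (Finset.erase_subset _ _))⟩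
    · intro x hx
      rw [Finset.mem_insert, Finset.mem_insert] at hx
      rcases hx with rfl | rfl | hx
      · simp [hne.symm]
      · simp [hne, hne.symm]
      · have hxp : x ≠ p' := fun h => hpP (h ▸ hx)
        have hxq : x ≠ q' := fun h => hqP (h ▸ hx)
        have hx3 := hπ x hx
        have hyp : π x ≠ p' := fun h => hpP (h ▸ hx3.1)
        have hyq : π x ≠ q' := fun h => hqP (h ▸ hx3.1)
        simp only [if_neg hxp, if_neg hxq, if_neg hyp, if_neg hyq]
        exact ⟨by simp [hx3.1], hx3.2⟩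
    · intro u hu
      by_cases hc : u ∈ fs (N p) ∩ fs (N q)
      · rw [Finset.mem_inter] at hc
        refine ⟨p', by simp, ?_, ?_⟩
        · rw [nb, mem_fs, N_sym, ← hp']
          exact mem_fs.1 hc.1
        · simp only [if_true]
          rw [nb, mem_fs, N_sym, ← hq']
          exact mem_fs.1 hc.2
      · obtain ⟨x, hx, hx1, hx2⟩ := hR u (Finset.mem_sdiff.2 ⟨hu, hc⟩)
        have hxp : x ≠ p' := fun h => hpP (h ▸ hx)
        have hxq : x ≠ q' := fun h => hqP (h ▸ hx)
        refine ⟨x, by simp [hx], hx1, ?_⟩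
        simp only [if_neg hxp, if_neg hxq]
        exact hx2

theorem BC.sound (c : BC) : ∀ A R X : ℕ, c.r A R X = true → Even (fs A).card →
    (c.isT = true → BB nb (fs A) (fs R)) ∧
    (c.isT = false → ∀ x ∈ fs X, ∃ y ∈ (fs A).erase x,
      BB nb (((fs A).erase x).erase y) ((fs R).filter fun u => y ∉ nb u)) := by
  induction c with
  | lf ps =>
    intro A R X h he
    refine ⟨fun _ => ?_, fun h' => by simp [BC.isT] at h'⟩
    simp only [BC.r] at h
    obtain ⟨P, π, h1, h2, h3⟩ := pc_sound ps A R h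
    obtain ⟨n, hn⟩ := he
    exact BB.pairs n (fs A) (fs R) P π (by omega) h1 h2 h3
  | st =>
    intro A R X h he
    refine ⟨fun h' => by simp [BC.isT] at h', fun _ x hx => ?_⟩
    simp only [BC.r, beq_iff_eq] at h
    rw [h, fs_zero] at hx
    simp at hx
  | nd k ih =>
    intro A R X h he
    refine ⟨fun _ => ?_, fun h' => by simp [BC.isT] at h'⟩
    simp only [BC.r, Bool.and_eq_true, decide_eq_true_eq, Bool.not_eq_true', beq_eq_false_iff_ne]
      at h
    obtain ⟨⟨⟨h0, h29⟩, h1⟩, h2⟩ := h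
    have h3 := (ih _ _ _ h2 he).2 h1
    classical
    choose! f hf1 hf2 using h3
    refine .step f ?_ hf1 hf2
    by_contra hemp
    rw [Finset.not_nonempty_iff_eq_empty, Finset.eq_empty_iff_forall_notMem] at hemp
    apply h0
    apply Nat.eq_of_testBit_eq
    intro i
    rw [Nat.zero_testBit]
    by_cases hi : i < 29
    · have := hemp ⟨i, hi⟩
      rw [mem_fs] at this
      simpa using this
    · exact Nat.testBit_lt_two_pow (h29.trans_le (Nat.pow_le_pow_right (by norm_num) (by omega)))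
  | ch x y t k iht ihk =>
    intro A R X h he
    refine ⟨fun h' => by simp [BC.isT] at h', fun _ z hz => ?_⟩
    simp only [BC.r, Bool.and_eq_true, decide_eq_true_eq, Bool.not_eq_true'] at h
    obtain ⟨⟨⟨⟨⟨⟨⟨hx, hy, hxy⟩, h1⟩, h2⟩, h3⟩, h4⟩, h5⟩, h6⟩ := h
    have e1 := fs_era A ⟨x, hx⟩
    have e2 := fs_era (era A x) ⟨y, hy⟩
    have e3 := fs_era X ⟨x, hx⟩
    simp only at e1 e2 e3
    by_cases hzx : z = ⟨x, hx⟩
    · subst hzx
      have hxA : (⟨x, hx⟩ : Fin 29) ∈ fs A := by rw [mem_fs]; exact h1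
      have hyA : (⟨y, hy⟩ : Fin 29) ∈ (fs A).erase ⟨x, hx⟩ := by
        rw [Finset.mem_erase]
        exact ⟨fun h => hxy (congrArg Fin.val h).symm, by rw [mem_fs]; exact h2⟩
      have c1 := Finset.card_erase_add_one hyA
      have c2 := Finset.card_erase_add_one hxA
      refine ⟨⟨y, hy⟩, hyA, ?_⟩
      have h7 := (iht _ _ _ h4 (by
        rw [e2, e1]
        obtain ⟨m, hm⟩ := he
        exact ⟨m - 1, by omega⟩)).1 h3
      rw [e2, e1] at h7
      have e4 : fs (dif R (N y)) = (fs R).filter fun u => (⟨y, hy⟩ : Fin 29) ∉ nb u := by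
        rw [fs_dif]
        ext u
        rw [Finset.mem_sdiff, Finset.mem_filter, nb, mem_fs, mem_fs, mem_fs, N_sym u]
      rw [← e4]
      exact h7
    · refine (ihk _ _ _ h6 he).2 h5 z ?_
      rw [e3, Finset.mem_erase]
      exact ⟨hzx, hz⟩

end Pool.Agent.Helper80.MB
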