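import Pool.Agent.T6.H95.MB.Game

/-!
# Maker-Breaker domination game: strategies on parts of the board

`MW S A`: Staller, to move, wins with the vertices of `S` (picked) and `A` (free).
`TT S A`: Staller, to move, can force the game to go on until all vertices of `A` are picked.
`BB A R`: Dominator, second in `A`, can dominate all vertices of `R` with vertices of `A`.
-/

set_option autoImplicit false

namespace Pool.Agent.Helper80.MB

open H95.MB Finset

set_option linter.unusedSectionVars false

variable {V : Type} [Fintype V] [DecidableEq V]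

/-- Staller to move; Dominator has `k` moves left -/
def SP (G : SimpleGraph V) (k : ℕ) (D S : Finset V) : Prop :=
  Dominating G D ∨ ((∃ w, w ∉ D ∧ w ∉ S) ∧
    ∀ w, w ∉ D → w ∉ S → WinsIn G k D (insert w S))

/-- `nb u` is the closed neighbourhood of `u` -/
def IsNb (G : SimpleGraph V) (nb : V → Finset V) : Prop := ∀ u w, w ∈ nb u ↔ w = u ∨ G.Adj w u

theorem winsIn_succ {G : SimpleGraph V} {k : ℕ} {D S : Finset V} (h : WinsIn G (k + 1) D S) :
    Dominating G D ∨ ∃ v, v ∉ D ∧ v ∉ S ∧ SP G k (insert v D) S := h

theorem not_dom {G : SimpleGraph V} {nb : V → Finset V} (hnb : IsNb G nb) {D X : Finset V} {u : V}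
    (hu : nb u ⊆ X) (hd : Disjoint X D) : ¬ Dominating G D := by
  intro h
  rcases h u with h1 | ⟨w, hw, hwu⟩
  · exact Finset.disjoint_left.1 hd (hu ((hnb u u).2 (Or.inl rfl))) h1
  · exact Finset.disjoint_left.1 hd (hu ((hnb u w).2 (Or.inr hwu))) hw

inductive MW (nb : V → Finset V) : Finset V → Finset V → Prop
  | won {S A : Finset V} (u : V) : nb u ⊆ S → MW nb S A
  | step {S A : Finset V} (x : V) : x ∈ A →
      (∀ y, MW nb (insert x S) ((A.erase x).erase y)) → MW nb S A

theorem MW.mono {nb : V → Finset V} {S A : Finset V} (h : MW nb S A) :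
    ∀ {S' A' : Finset V}, S ⊆ S' → A ⊆ A' → MW nb S' A' := by
  induction h with
  | won u hu => intro S' A' h1 _; exact .won u (hu.trans h1)
  | step x hx _ ih =>
    intro S' A' h1 h2
    exact .step x (h2 hx) fun y => ih y (Finset.insert_subset_insert x h1)
      (Finset.erase_subset_erase y (Finset.erase_subset_erase x h2))

theorem MW.wit {nb : V → Finset V} {S A : Finset V} (h : MW nb S A) : ∃ u, nb u ⊆ S ∪ A := by
  induction h with
  | won u hu => exact ⟨u, hu.trans Finset.subset_union_left⟩
  | @step S A x hx _ ih =>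
    obtain ⟨u, hu⟩ := ih x
    refine ⟨u, hu.trans ?_⟩
    intro w hw
    simp only [Finset.mem_union, Finset.mem_insert, Finset.mem_erase] at hw ⊢
    rcases hw with (rfl | hw) | hw
    · exact Or.inr hx
    · exact Or.inl hw
    · exact Or.inr hw.2.2

theorem lost {G : SimpleGraph V} {nb : V → Finset V} (hnb : IsNb G nb) {u : V} :
    ∀ (k : ℕ) (D S : Finset V), nb u ⊆ S → Disjoint S D → ¬ WinsIn G k D S := by
  intro k
  induction k with
  | zero => intro D S hu hd h; exact not_dom hnb hu hd h
  | succ k ih =>
    intro D S hu hd h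
    rcases winsIn_succ h with h | ⟨v, hv, hvS, h⟩
    · exact not_dom hnb hu hd h
    · have hd' : Disjoint S (insert v D) := by
        rw [Finset.disjoint_insert_right]
        exact ⟨hvS, hd⟩
      rcases h with h | ⟨⟨w, hw, hwS⟩, h⟩
      · exact not_dom hnb hu hd' h
      · refine ih (insert v D) (insert w S) (hu.trans (Finset.subset_insert _ _)) ?_ (h w hw hwS)
        rw [Finset.disjoint_insert_left]
        exact ⟨hw, hd'⟩

theorem MW.sound {G : SimpleGraph V} {nb : V → Finset V} (hnb : IsNb G nb) {S A : Finset V}
    (h : MW nb S A) : ∀ (k : ℕ) (D : Finset V), Disjoint A D → Disjoint A S → Disjoint S D →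
    ¬ SP G k D S := by
  induction h with
  | won u hu =>
    intro k D hAD hAS hSD hSP
    rcases hSP with h | ⟨⟨w, hw, hwS⟩, h⟩
    · exact not_dom hnb hu hSD h
    · refine lost hnb (u := u) k _ _ (hu.trans (Finset.subset_insert w _)) ?_ (h w hw hwS)
      rw [Finset.disjoint_insert_left]
      exact ⟨hw, hSD⟩
  | @step S A x hx hy ih =>
    intro k D hAD hAS hSD hSP
    have hnd : ¬ Dominating G D := by
      obtain ⟨u, hu⟩ := (MW.step x hx hy : MW nb S A).wit
      exact not_dom hnb hu (Finset.disjoint_union_left.2 ⟨hSD, hAD⟩)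
    have hxD : x ∉ D := Finset.disjoint_left.1 hAD hx
    have hxS : x ∉ S := Finset.disjoint_left.1 hAS hx
    rcases hSP with h | ⟨-, h⟩
    · exact hnd h
    have h1 := h x hxD hxS
    cases k with
    | zero => exact hnd h1
    | succ k =>
      rcases winsIn_succ h1 with h2 | ⟨v, hv, hvS, h2⟩
      · exact hnd h2
      · rw [Finset.mem_insert, not_or] at hvS
        refine ih v k (insert v D) ?_ ?_ ?_ h2
        · rw [Finset.disjoint_insert_right]
          refine ⟨Finset.notMem_erase _ _, ?_⟩
          exact hAD.mono_left ((Finset.erase_subset _ _).trans (Finset.erase_subset _ _))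
        · rw [Finset.disjoint_insert_right]
          refine ⟨?_, hAS.mono_left ((Finset.erase_subset _ _).trans (Finset.erase_subset _ _))⟩
          simp
        · rw [Finset.disjoint_insert_left, Finset.disjoint_insert_right, Finset.mem_insert, not_or]
          exact ⟨⟨fun h => hvS.1 h.symm, hxD⟩, hvS.2, hSD⟩

inductive TT (nb : V → Finset V) : Finset V → Finset V → Prop
  | nil {S : Finset V} : TT nb S ∅
  | step {S A : Finset V} (x u : V) (M : Finset V) : x ∈ A → nb u ⊆ S ∪ A →
      (∀ y, y ∉ M → MW nb (insert x S) ((A.erase x).erase y)) → M ⊆ A.erase x →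
      (∀ y, y ∈ M → TT nb (insert x S) ((A.erase x).erase y)) → TT nb S A

theorem TT.mono {nb : V → Finset V} {S A : Finset V} (h : TT nb S A) :
    ∀ {S' : Finset V}, S ⊆ S' → TT nb S' A := by
  induction h with
  | nil => intro S' _; exact .nil
  | step x u M hx hu h hM _ ih =>
    intro S' h1
    have h2 := Finset.insert_subset_insert x h1
    exact .step x u M hx (hu.trans (Finset.union_subset_union_left h1))
      (fun y hy => (h y hy).mono h2 le_rfl) hM fun y hy => ih y hy h2

/-- one round on the part `A` -/
theorem TT.round {G : SimpleGraph V} {nb : V → Finset V} (hnb : IsNb G nb) (m : ℕ)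
    (ih : ∀ j, j < m → ∀ (S D A B : Finset V), TT nb S A → TT nb S B → Disjoint A B →
      Disjoint A D → Disjoint B D → Disjoint A S → Disjoint B S → Disjoint S D →
      A.card + B.card = 2 * (j + 1) → ¬ SP G j D S)
    (S D A B : Finset V) (hA : TT nb S A) (hB : TT nb S B) (hAB : Disjoint A B)
    (hAD : Disjoint A D) (hBD : Disjoint B D) (hAS : Disjoint A S) (hBS : Disjoint B S)
    (hSD : Disjoint S D) (hc : A.card + B.card = 2 * (m + 1)) (hne : A.Nonempty) :
    ¬ SP G m D S := by
  intro hSP
  cases hA with
  | nil => exact absurd hne (by simp)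
  | step x u M hx hu h hM hT =>
    have hnd : ¬ Dominating G D := not_dom hnb hu (Finset.disjoint_union_left.2 ⟨hSD, hAD⟩)
    have hxD : x ∉ D := Finset.disjoint_left.1 hAD hx
    have hxS : x ∉ S := Finset.disjoint_left.1 hAS hx
    have hxB : x ∉ B := Finset.disjoint_left.1 hAB hx
    rcases hSP with h0 | ⟨-, h0⟩
    · exact hnd h0
    have h1 := h0 x hxD hxS
    cases m with
    | zero => exact hnd h1
    | succ m =>
      rcases winsIn_succ h1 with h2 | ⟨v, hv, hvS, h2⟩
      · exact hnd h2
      · rw [Finset.mem_insert, not_or] at hvS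
        have hsub : (A.erase x).erase v ⊆ A :=
          (Finset.erase_subset _ _).trans (Finset.erase_subset _ _)
        have e1 : Disjoint ((A.erase x).erase v) (insert v D) := by
          rw [Finset.disjoint_insert_right]
          exact ⟨Finset.notMem_erase _ _, hAD.mono_left hsub⟩
        have e2 : Disjoint ((A.erase x).erase v) (insert x S) := by
          rw [Finset.disjoint_insert_right]
          exact ⟨by simp, hAS.mono_left hsub⟩
        have e3 : Disjoint (insert x S) (insert v D) := by
          rw [Finset.disjoint_insert_left, Finset.disjoint_insert_right, Finset.mem_insert, not_or]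
          exact ⟨⟨fun h => hvS.1 h.symm, hxD⟩, hvS.2, hSD⟩
        by_cases hvM : v ∈ M
        · have hvA : v ∈ A.erase x := hM hvM
          have hvA' : v ∈ A := Finset.mem_of_mem_erase hvA
          have hvB : v ∉ B := Finset.disjoint_left.1 hAB hvA'
          refine ih m (Nat.lt_succ_self m) (insert x S) (insert v D) ((A.erase x).erase v) B
            (hT v hvM) (hB.mono (Finset.subset_insert _ _)) (hAB.mono_left hsub) e1 ?_ e2 ?_ e3
            ?_ h2
          · rw [Finset.disjoint_insert_right]; exact ⟨hvB, hBD⟩
          · rw [Finset.disjoint_insert_right]; exact ⟨hxB, hBS⟩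
          · have c1 := Finset.card_erase_add_one hvA
            have c2 := Finset.card_erase_add_one hx
            omega
        · exact (h v hvM).sound hnb m (insert v D) e1 e2 e3 h2

theorem TT.sound {G : SimpleGraph V} {nb : V → Finset V} (hnb : IsNb G nb) (m : ℕ) :
    ∀ (S D A B : Finset V), TT nb S A → TT nb S B → Disjoint A B → Disjoint A D → Disjoint B D →
    Disjoint A S → Disjoint B S → Disjoint S D → A.card + B.card = 2 * (m + 1) →
    ¬ SP G m D S := by
  induction m using Nat.strong_induction_on with
  | _ m ih =>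
    intro S D A B hA hB hAB hAD hBD hAS hBS hSD hc
    by_cases hne : A.Nonempty
    · exact TT.round hnb m ih S D A B hA hB hAB hAD hBD hAS hBS hSD hc hne
    · have hne' : B.Nonempty := by
        rw [Finset.not_nonempty_iff_eq_empty] at hne
        rw [← Finset.card_pos]
        subst hne
        rw [Finset.card_empty] at hc
        omega
      exact TT.round hnb m ih S D B A hB hA hAB.symm hBD hAD hBS hAS hSD (by omega) hne'

/-! ### Dominator -/

inductive BB (nb : V → Finset V) : Finset V → Finset V → Prop
  | nil {A : Finset V} : BB nb A ∅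
  | step {A R : Finset V} (f : V → V) : A.Nonempty → (∀ x, x ∈ A → f x ∈ A.erase x) →
      (∀ x, x ∈ A → BB nb ((A.erase x).erase (f x)) (R.filter fun u => f x ∉ nb u)) → BB nb A R

theorem BB.reply {nb : V → Finset V} {A R : Finset V} (h : BB nb A R) (he : Even A.card) {x : V}
    (hx : x ∈ A) : ∃ y ∈ A.erase x, BB nb ((A.erase x).erase y) (R.filter fun u => y ∉ nb u) := by
  cases h with
  | nil =>
    have h1 := Finset.card_erase_add_one hx
    have h2 : (A.erase x).Nonempty := by
      rw [← Finset.card_pos]
      by_contra h3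
      have h4 : (A.erase x).card = 0 := by omega
      rw [h4] at h1
      rw [← h1] at he
      exact absurd he (by decide)
    obtain ⟨y, hy⟩ := h2
    exact ⟨y, hy, by rw [Finset.filter_empty]; exact .nil⟩
  | step f _ hf h => exact ⟨f x, hf x hx, h x hx⟩

theorem BB.round {G : SimpleGraph V} {nb : V → Finset V} (hnb : IsNb G nb) (m : ℕ) :
    ∀ (S D A B R Q : Finset V), BB nb A R → BB nb B Q → Even A.card → Even B.card →
    Disjoint A B → Disjoint A D → Disjoint B D → Disjoint A S → Disjoint B S →
    (∀ w, w ∉ D → w ∉ S → w ∈ A ∨ w ∈ B) →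
    (∀ u, (∀ w ∈ nb u, w ∉ D) → u ∈ R ∨ u ∈ Q) → A.card + B.card = 2 * m → SP G m D S := by
  induction m with
  | zero =>
    intro S D A B R Q hA hB _ _ _ _ _ _ _ _ hR hc
    left
    have hA0 : A = ∅ := by rw [← Finset.card_eq_zero]; omega
    have hB0 : B = ∅ := by rw [← Finset.card_eq_zero]; omega
    have hR0 : R = ∅ := by
      cases hA with
      | nil => rfl
      | step f hne _ _ => exact absurd hne (by simp [hA0])
    have hQ0 : Q = ∅ := by
      cases hB with
      | nil => rfl
      | step f hne _ _ => exact absurd hne (by simp [hB0])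
    intro u
    by_contra hcon
    rw [not_or] at hcon
    have := hR u (fun w hw hwD => by
      rcases (hnb u w).1 hw with rfl | hadj
      · exact hcon.1 hwD
      · exact hcon.2 ⟨w, hwD, hadj⟩)
    rw [hR0, hQ0] at this
    simp at this
  | succ m ih =>
    intro S D A B R Q hA hB heA heB hAB hAD hBD hAS hBS hfree hR hc
    by_cases hdom : Dominating G D
    · exact Or.inl hdom
    right
    -- the reply in `A`
    have key : ∀ (A B R Q : Finset V), BB nb A R → BB nb B Q → Even A.card → Even B.card →
        Disjoint A B → Disjoint A D → Disjoint B D → Disjoint A S → Disjoint B S →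
        (∀ w, w ∉ D → w ∉ S → w ∈ A ∨ w ∈ B) →
        (∀ u, (∀ w ∈ nb u, w ∉ D) → u ∈ R ∨ u ∈ Q) → A.card + B.card = 2 * (m + 1) →
        ∀ x ∈ A, WinsIn G (m + 1) D (insert x S) := by
      intro A B R Q hA hB heA heB hAB hAD hBD hAS hBS hfree hR hc x hx
      obtain ⟨y, hy, h⟩ := hA.reply heA hx
      have hyA : y ∈ A := Finset.mem_of_mem_erase hy
      have hyx : y ≠ x := Finset.ne_of_mem_erase hy
      have hsub : (A.erase x).erase y ⊆ A :=
        (Finset.erase_subset _ _).trans (Finset.erase_subset _ _)
      have c1 := Finset.card_erase_add_one hy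
      have c2 := Finset.card_erase_add_one hx
      have hyD : y ∉ D := Finset.disjoint_left.1 hAD hyA
      have hyS : y ∉ insert x S := by
        rw [Finset.mem_insert, not_or]
        exact ⟨hyx, Finset.disjoint_left.1 hAS hyA⟩
      have hev : Even ((A.erase x).erase y).card := by
        obtain ⟨t, ht⟩ := heA
        exact ⟨t - 1, by omega⟩
      refine Or.inr ⟨y, hyD, hyS, ?_⟩
      refine ih (insert x S) (insert y D) ((A.erase x).erase y) B
        (R.filter fun u => y ∉ nb u) Q h hB hev heB (hAB.mono_left hsub) ?_ ?_ ?_ ?_ ?_ ?_ ?_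
      · rw [Finset.disjoint_insert_right]
        exact ⟨Finset.notMem_erase _ _, hAD.mono_left hsub⟩
      · rw [Finset.disjoint_insert_right]
        exact ⟨Finset.disjoint_left.1 hAB hyA, hBD⟩
      · rw [Finset.disjoint_insert_right]
        exact ⟨by simp, hAS.mono_left hsub⟩
      · rw [Finset.disjoint_insert_right]
        exact ⟨Finset.disjoint_left.1 hAB hx, hBS⟩
      · intro w hwD hwS
        rw [Finset.mem_insert, not_or] at hwD hwS
        rcases hfree w hwD.2 hwS.2 with h1 | h1
        · left
          simp only [Finset.mem_erase]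
          exact ⟨hwD.1, hwS.1, h1⟩
        · exact Or.inr h1
      · intro u hu
        have hu1 : ∀ w ∈ nb u, w ∉ D := fun w hw hwD => hu w hw (Finset.mem_insert_of_mem hwD)
        have hu2 : y ∉ nb u := fun hyu => hu y hyu (Finset.mem_insert_self _ _)
        rcases hR u hu1 with h1 | h1
        · exact Or.inl (Finset.mem_filter.2 ⟨h1, hu2⟩)
        · exact Or.inr h1
      · omega
    constructor
    · have : (A ∪ B).Nonempty := by
        rw [← Finset.card_pos, Finset.card_union_of_disjoint hAB]
        omega
      obtain ⟨w, hw⟩ := this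
      rcases Finset.mem_union.1 hw with hw | hw
      · exact ⟨w, Finset.disjoint_left.1 hAD hw, Finset.disjoint_left.1 hAS hw⟩
      · exact ⟨w, Finset.disjoint_left.1 hBD hw, Finset.disjoint_left.1 hBS hw⟩
    · intro w hwD hwS
      rcases hfree w hwD hwS with hw | hw
      · exact key A B R Q hA hB heA heB hAB hAD hBD hAS hBS hfree hR hc w hw
      · exact key B A Q R hB hA heB heA hAB.symm hBD hAD hBS hAS
          (fun w h1 h2 => (hfree w h1 h2).symm) (fun u hu => (hR u hu).symm) (by omega) w hw

/-- pairs -/
theorem BB.pairs {nb : V → Finset V} (n : ℕ) : ∀ (A R P : Finset V) (π : V → V), A.card = 2 * n →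
    P ⊆ A → (∀ x ∈ P, π x ∈ P ∧ π x ≠ x ∧ π (π x) = x) →
    (∀ u ∈ R, ∃ p ∈ P, p ∈ nb u ∧ π p ∈ nb u) → BB nb A R := by
  induction n with
  | zero =>
    intro A R P π hc hP hπ hR
    have hA0 : A = ∅ := by rw [← Finset.card_eq_zero]; omega
    have hR0 : R = ∅ := by
      rw [Finset.eq_empty_iff_forall_notMem]
      intro u hu
      obtain ⟨p, hp, -⟩ := hR u hu
      have := hP hp
      rw [hA0] at this
      simp at this
    rw [hR0]
    exact .nil
  | succ n ih =>
    intro A R P π hc hP hπ hR
    have hne : ∀ x ∈ A, (A.erase x).Nonempty := by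
      intro x hx
      have := Finset.card_erase_add_one hx
      rw [← Finset.card_pos]
      omega
    classical
    let f : V → V := fun x => if x ∈ P then π x else if h : (A.erase x).Nonempty then h.choose else x
    have hf : ∀ x ∈ A, f x ∈ A.erase x := by
      intro x hx
      by_cases hxP : x ∈ P
      · simp only [f, if_pos hxP]
        rw [Finset.mem_erase]
        exact ⟨(hπ x hxP).2.1, hP (hπ x hxP).1⟩
      · simp only [f, if_neg hxP, dif_pos (hne x hx)]
        exact (hne x hx).choose_spec
    refine .step f (by rw [← Finset.card_pos]; omega) hf fun x hx => ?_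
    have hfx := hf x hx
    generalize hy : f x = y at hfx ⊢
    have c1 := Finset.card_erase_add_one hfx
    have c2 := Finset.card_erase_add_one hx
    -- partners of removed vertices
    have hpx : ∀ p ∈ P, p ≠ y → π p ≠ y → p ≠ x ∧ π p ≠ x := by
      intro p hp h1 h2
      constructor
      · rintro rfl
        apply h2
        rw [← hy]
        simp only [f, if_pos hp]
      · intro h3
        have hxP : x ∈ P := h3 ▸ (hπ p hp).1
        apply h1
        rw [← hy]
        simp only [f, if_pos hxP]
        rw [← h3, (hπ p hp).2.2]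
    refine ih ((A.erase x).erase y) _ (P.filter fun p => p ≠ y ∧ π p ≠ y) π (by omega) ?_ ?_ ?_
    · intro p hp
      rw [Finset.mem_filter] at hp
      have := hpx p hp.1 hp.2.1 hp.2.2
      simp only [Finset.mem_erase]
      exact ⟨hp.2.1, this.1, hP hp.1⟩
    · intro p hp
      rw [Finset.mem_filter] at hp ⊢
      have h1 := hπ p hp.1
      exact ⟨⟨h1.1, hp.2.2, by rw [h1.2.2]; exact hp.2.1⟩, h1.2⟩
    · intro u hu
      rw [Finset.mem_filter] at hu
      obtain ⟨p, hp, h1, h2⟩ := hR u hu.1
      refine ⟨p, ?_, h1, h2⟩
      rw [Finset.mem_filter]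
      exact ⟨hp, fun h => hu.2 (h ▸ h1), fun h => hu.2 (h ▸ h2)⟩

end Pool.Agent.Helper80.MB
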