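import Pool.Agent.Helper80.MB.Chk

/-!
# The strategy trees
-/

set_option autoImplicit false

namespace Pool.Agent.Helper80.MB

def cM0 : MT :=
  (.ge 4 (.al (.ge 2 (.al (.th 3 9 9 (.th 1 8 8 (.th 5 13 13 (.ge 0 (.al (.ge 11 (.wn 11)) (.ge
  12 (.wn 12))))))) (.al (.th 9 9 3 (.ge 10 (.al (.ge 13 (.wn 2)) (.ge 0 (.wn 10))))) (.al (.th
  9 9 3 (.th 13 2 10 (.ge 1 (.al (.ge 8 (.wn 1)) (.ge 5 (.wn 13)))))) (.th 0 10 10 (.ge 5 (.al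
  (.ge 11 (.wn 11)) (.ge 12 (.wn 12))))))))) (.al (.th 6 6 28 (.th 9 4 7 (.ge 3 (.al (.ge 8 (.wn
  3)) (.ge 2 (.wn 9)))))) (.th 0 7 7 (.ge 5 (.al (.ge 11 (.wn 11)) (.ge 12 (.wn 12))))))))

def cT0 : TC :=
  (.nd 2 0 (.al (.ge 1 (.al (.th 3 8 8 (.th 4 9 9 (.th 0 7 7 (.ge 5 (.al (.ge 11 (.wn 11)) (.ge
  12 (.wn 12))))))) (.al (.th 5 13 13 (.ge 0 (.al (.ge 11 (.wn 11)) (.ge 12 (.wn 12))))) (.al
  (.ge 13 (.al (.ge 8 (.wn 1)) (.ge 5 (.wn 13)))) (.ge 8 (.al (.ge 13 (.wn 1)) (.ge 3 (.wn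
  8)))))))) (.al (.th 10 10 0 (.th 9 2 13 (.ge 3 (.al (.ge 8 (.wn 3)) (.ge 4 (.wn 9)))))) (.th 0
  10 10 (.ge 5 (.al (.ge 11 (.wn 11)) (.ge 12 (.wn 12))))))) (.ch 0 (.nd 9 1 (.al (.th 13 2 10
  (.ge 1 (.al (.ge 8 (.wn 1)) (.ge 5 (.wn 13))))) (.ge 3 (.al (.ge 8 (.wn 3)) (.ge 4 (.wn 9)))))
  (.ch 8 (.nd 4 2 (.ge 3 (.wn 9)) (.ch 3 (.nd 6 2 (.ge 7 (.wn 4)) (.ch 7 (.nd 13 2 (.ge 10 (.wn
  2)) (.ch 10 (.nd 5 5 (.ge 1 (.wn 13)) (.ch 1 (.nd 11 5 (.ge 12 (.wn 5)) (.ch 12 .tn .st))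
  .st)) .st)) .st)) .st)) .st)) .st))

def cB0 : BC :=
  (.nd (.ch 13 2 (.lf [(1, 8), (3, 9), (5, 11), (4, 7), (0, 12)]) (.ch 12 0 (.lf [(1, 8), (3,
  9), (5, 11), (2, 13), (4, 6)]) (.ch 11 0 (.lf [(1, 8), (3, 9), (5, 12), (2, 13), (4, 6)]) (.ch
  10 0 (.lf [(1, 8), (2, 13), (3, 9), (4, 6), (5, 11)]) (.ch 9 2 (.lf [(3, 8), (1, 13), (4, 7),
  (0, 5), (11, 12)]) (.ch 8 1 (.lf [(3, 9), (4, 7), (2, 10), (0, 5), (11, 12)]) (.ch 7 0 (.lf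
  [(1, 8), (3, 9), (4, 6), (2, 10), (5, 13)]) (.ch 6 0 (.lf [(1, 8), (3, 9), (4, 7), (2, 10),
  (5, 13)]) (.ch 5 0 (.lf [(1, 8), (3, 9), (11, 12), (2, 13), (4, 6)]) (.ch 4 0 (.lf [(1, 8),
  (3, 9), (6, 7), (2, 10), (5, 13)]) (.ch 3 9 (.nd (.ch 13 0 (.lf [(1, 8), (11, 12), (2, 5)])
  (.ch 12 0 (.lf [(1, 8), (5, 11), (2, 13)]) (.ch 11 0 (.lf [(1, 8), (5, 12), (2, 13)]) (.ch 10
  0 (.lf [(1, 8), (5, 11), (2, 13)]) (.ch 8 1 (.lf [(4, 7), (2, 10), (0, 5), (11, 12)]) (.ch 7 0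
  (.lf [(1, 8), (5, 11), (2, 13)]) (.ch 6 0 (.lf [(1, 8), (5, 11), (2, 13)]) (.ch 5 0 (.lf [(1,
  8), (11, 12), (2, 13)]) (.ch 4 0 (.lf [(1, 8), (5, 11), (2, 13)]) (.ch 2 0 (.lf [(1, 8), (5,
  13)]) (.ch 1 8 (.nd (.ch 13 0 (.lf [(2, 5), (11, 12)]) (.ch 12 0 (.lf [(5, 11), (2, 13)]) (.ch
  11 0 (.lf [(5, 12), (2, 13)]) (.ch 10 0 (.lf [(2, 5), (11, 12)]) (.ch 7 0 (.lf [(2, 5), (11,
  12)]) (.ch 6 0 (.lf [(2, 5), (11, 12)]) (.ch 5 0 (.lf [(2, 13), (11, 12)]) (.ch 4 0 (.lf [(2,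
  5), (11, 12)]) (.ch 2 0 (.lf [(5, 13)]) (.ch 0 5 (.lf [(4, 7), (2, 10), (11, 12)])
  .st))))))))))) (.ch 0 5 (.lf [(4, 7), (1, 8), (2, 10), (11, 12)]) .st))))))))))))) (.ch 2 0
  (.nd (.ch 13 8 (.lf [(9, 10), (1, 5), (11, 12), (3, 4), (6, 7)]) (.ch 12 9 (.lf [(1, 8), (5,
  13)]) (.ch 11 9 (.lf [(1, 8), (5, 13)]) (.ch 10 9 (.lf [(1, 8), (5, 13)]) (.ch 9 8 (.lf [(10,
  13), (3, 4), (6, 7), (1, 5), (11, 12)]) (.ch 8 1 (.lf [(3, 9), (10, 13), (4, 6), (5, 11)])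
  (.ch 7 9 (.lf [(1, 8), (5, 13)]) (.ch 6 9 (.lf [(1, 8), (5, 13)]) (.ch 5 9 (.lf [(1, 13), (11,
  12), (3, 8)]) (.ch 4 9 (.lf [(1, 8), (5, 13)]) (.ch 3 9 (.lf [(1, 8), (5, 13)]) (.ch 1 13 (.lf
  [(3, 8), (4, 9)]) .st))))))))))))) (.ch 1 8 (.nd (.ch 13 2 (.lf [(5, 11), (4, 7), (0, 12)])
  (.ch 12 0 (.lf [(5, 11), (2, 13), (4, 6), (3, 9)]) (.ch 11 0 (.lf [(5, 12), (2, 13), (4, 6),
  (3, 9)]) (.ch 10 0 (.lf [(2, 9), (5, 13), (4, 6)]) (.ch 9 2 (.lf [(4, 7), (0, 5), (11, 12)])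
  (.ch 7 0 (.lf [(4, 6), (2, 5), (10, 13), (11, 12), (3, 9)]) (.ch 6 2 (.lf [(4, 7), (0, 5),
  (11, 12)]) (.ch 5 0 (.lf [(2, 13), (11, 12), (4, 6), (3, 9)]) (.ch 4 0 (.lf [(6, 7), (2, 3),
  (5, 13), (9, 10)]) (.ch 3 2 (.lf [(4, 7), (0, 5), (11, 12)]) (.ch 2 0 (.lf [(5, 13), (9, 10),
  (3, 4), (6, 7)]) (.ch 0 5 (.lf [(4, 7), (2, 10), (11, 12), (3, 9)]) .st))))))))))))) (.ch 0 5
  (.lf [(4, 7), (2, 10), (1, 8), (3, 9), (11, 12)]) .st)))))))))))))))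

def cM1 : MT :=
  (.ge 18 (.al (.ge 16 (.al (.th 17 23 23 (.th 15 22 22 (.th 19 27 27 (.ge 14 (.al (.ge 25 (.wn
  25)) (.ge 26 (.wn 26))))))) (.al (.th 23 23 17 (.ge 24 (.al (.ge 27 (.wn 16)) (.ge 14 (.wn
  24))))) (.al (.th 23 23 17 (.th 27 16 24 (.ge 15 (.al (.ge 22 (.wn 15)) (.ge 19 (.wn 27))))))
  (.th 14 24 24 (.ge 19 (.al (.ge 25 (.wn 25)) (.ge 26 (.wn 26))))))))) (.al (.th 20 20 28 (.th
  23 18 21 (.ge 17 (.al (.ge 22 (.wn 17)) (.ge 16 (.wn 23)))))) (.th 14 21 21 (.ge 19 (.al (.ge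
  25 (.wn 25)) (.ge 26 (.wn 26))))))))

def cT1 : TC :=
  (.nd 16 14 (.al (.ge 15 (.al (.th 17 22 22 (.th 18 23 23 (.th 14 21 21 (.ge 19 (.al (.ge 25
  (.wn 25)) (.ge 26 (.wn 26))))))) (.al (.th 19 27 27 (.ge 14 (.al (.ge 25 (.wn 25)) (.ge 26
  (.wn 26))))) (.al (.ge 27 (.al (.ge 22 (.wn 15)) (.ge 19 (.wn 27)))) (.ge 22 (.al (.ge 27 (.wn
  15)) (.ge 17 (.wn 22)))))))) (.al (.th 24 24 14 (.th 23 16 27 (.ge 17 (.al (.ge 22 (.wn 17))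
  (.ge 18 (.wn 23)))))) (.th 14 24 24 (.ge 19 (.al (.ge 25 (.wn 25)) (.ge 26 (.wn 26))))))) (.ch
  14 (.nd 23 15 (.al (.th 27 16 24 (.ge 15 (.al (.ge 22 (.wn 15)) (.ge 19 (.wn 27))))) (.ge 17
  (.al (.ge 22 (.wn 17)) (.ge 18 (.wn 23))))) (.ch 22 (.nd 18 16 (.ge 17 (.wn 23)) (.ch 17 (.nd
  20 16 (.ge 21 (.wn 18)) (.ch 21 (.nd 27 16 (.ge 24 (.wn 16)) (.ch 24 (.nd 19 19 (.ge 15 (.wn
  27)) (.ch 15 (.nd 25 19 (.ge 26 (.wn 19)) (.ch 26 .tn .st)) .st)) .st)) .st)) .st)) .st))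
  .st))

def cB1 : BC :=
  (.nd (.ch 27 16 (.lf [(15, 22), (17, 23), (19, 25), (18, 21), (14, 26)]) (.ch 26 14 (.lf [(15,
  22), (17, 23), (19, 25), (16, 27), (18, 20)]) (.ch 25 14 (.lf [(15, 22), (17, 23), (19, 26),
  (16, 27), (18, 20)]) (.ch 24 14 (.lf [(15, 22), (16, 27), (17, 23), (18, 20), (19, 25)]) (.ch
  23 16 (.lf [(17, 22), (15, 27), (18, 21), (14, 19), (25, 26)]) (.ch 22 15 (.lf [(17, 23), (18,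
  21), (16, 24), (14, 19), (25, 26)]) (.ch 21 14 (.lf [(15, 22), (17, 23), (18, 20), (16, 24),
  (19, 27)]) (.ch 20 14 (.lf [(15, 22), (17, 23), (18, 21), (16, 24), (19, 27)]) (.ch 19 14 (.lf
  [(15, 22), (17, 23), (25, 26), (16, 27), (18, 20)]) (.ch 18 14 (.lf [(15, 22), (17, 23), (20,
  21), (16, 24), (19, 27)]) (.ch 17 23 (.nd (.ch 27 14 (.lf [(15, 22), (25, 26), (16, 19)]) (.ch
  26 14 (.lf [(15, 22), (19, 25), (16, 27)]) (.ch 25 14 (.lf [(15, 22), (19, 26), (16, 27)])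
  (.ch 24 14 (.lf [(15, 22), (19, 25), (16, 27)]) (.ch 22 15 (.lf [(18, 21), (16, 24), (14, 19),
  (25, 26)]) (.ch 21 14 (.lf [(15, 22), (19, 25), (16, 27)]) (.ch 20 14 (.lf [(15, 22), (19,
  25), (16, 27)]) (.ch 19 14 (.lf [(15, 22), (25, 26), (16, 27)]) (.ch 18 14 (.lf [(15, 22),
  (19, 25), (16, 27)]) (.ch 16 14 (.lf [(15, 22), (19, 27)]) (.ch 15 22 (.nd (.ch 27 14 (.lf
  [(16, 19), (25, 26)]) (.ch 26 14 (.lf [(19, 25), (16, 27)]) (.ch 25 14 (.lf [(19, 26), (16,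
  27)]) (.ch 24 14 (.lf [(16, 19), (25, 26)]) (.ch 21 14 (.lf [(16, 19), (25, 26)]) (.ch 20 14
  (.lf [(16, 19), (25, 26)]) (.ch 19 14 (.lf [(16, 27), (25, 26)]) (.ch 18 14 (.lf [(16, 19),
  (25, 26)]) (.ch 16 14 (.lf [(19, 27)]) (.ch 14 19 (.lf [(18, 21), (16, 24), (25, 26)])
  .st))))))))))) (.ch 14 19 (.lf [(18, 21), (15, 22), (16, 24), (25, 26)]) .st))))))))))))) (.ch
  16 14 (.nd (.ch 27 22 (.lf [(23, 24), (15, 19), (25, 26), (17, 18), (20, 21)]) (.ch 26 23 (.lf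
  [(15, 22), (19, 27)]) (.ch 25 23 (.lf [(15, 22), (19, 27)]) (.ch 24 23 (.lf [(15, 22), (19,
  27)]) (.ch 23 22 (.lf [(24, 27), (17, 18), (20, 21), (15, 19), (25, 26)]) (.ch 22 15 (.lf
  [(17, 23), (24, 27), (18, 20), (19, 25)]) (.ch 21 23 (.lf [(15, 22), (19, 27)]) (.ch 20 23
  (.lf [(15, 22), (19, 27)]) (.ch 19 23 (.lf [(15, 27), (25, 26), (17, 22)]) (.ch 18 23 (.lf
  [(15, 22), (19, 27)]) (.ch 17 23 (.lf [(15, 22), (19, 27)]) (.ch 15 27 (.lf [(17, 22), (18,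
  23)]) .st))))))))))))) (.ch 15 22 (.nd (.ch 27 16 (.lf [(19, 25), (18, 21), (14, 26)]) (.ch 26
  14 (.lf [(19, 25), (16, 27), (18, 20), (17, 23)]) (.ch 25 14 (.lf [(19, 26), (16, 27), (18,
  20), (17, 23)]) (.ch 24 14 (.lf [(16, 23), (19, 27), (18, 20)]) (.ch 23 16 (.lf [(18, 21),
  (14, 19), (25, 26)]) (.ch 21 14 (.lf [(18, 20), (16, 19), (24, 27), (25, 26), (17, 23)]) (.ch
  20 16 (.lf [(18, 21), (14, 19), (25, 26)]) (.ch 19 14 (.lf [(16, 27), (25, 26), (18, 20), (17,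
  23)]) (.ch 18 14 (.lf [(20, 21), (16, 17), (19, 27), (23, 24)]) (.ch 17 16 (.lf [(18, 21),
  (14, 19), (25, 26)]) (.ch 16 14 (.lf [(19, 27), (23, 24), (17, 18), (20, 21)]) (.ch 14 19 (.lf
  [(18, 21), (16, 24), (25, 26), (17, 23)]) .st))))))))))))) (.ch 14 19 (.lf [(18, 21), (16,
  24), (15, 22), (17, 23), (25, 26)]) .st)))))))))))))))

theorem okM0 : (cM0.f 0).1 = true ∧ (cM0.f 0).2.1 = (cM0.f 0).2.2 ∧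
    sub (cM0.f 0).2.2 268451839 = true := by decide +kernel

theorem okM1 : (cM1.f 0).1 = true ∧ (cM1.f 0).2.1 = (cM1.f 0).2.2 ∧
    sub (cM1.f 0).2.2 536854528 = true := by decide +kernel

theorem okT0 : cT0.isT = true ∧ cT0.r 0 16383 0 = true := by decide +kernel

theorem okT1 : cT1.isT = true ∧ cT1.r 0 268419072 0 = true := by decide +kernel

theorem okB0 : cB0.isT = true ∧ cB0.r 16383 16319 0 = true := by decide +kernel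

theorem okB1 : cB1.isT = true ∧ cB1.r 268419072 267370496 0 = true := by decide +kernel

end Pool.Agent.Helper80.MB
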