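import Pool.Agent.Helper80.MB.Data

/-!
# MP_374a5d_co: a connected graph of odd order with the largest Maker-Breaker domination number

There is a connected graph of odd order `n = 29` with `γ_MB = (n + 1) / 2 = 15`, so the answer to
the question is yes. The graph consists of two copies of a bipartite graph `H` with 14 vertices and
17 edges and of a vertex `28`, which is joined to the vertex `6` of both copies. The graph `H` has
these properties: (i) if `6` is dominated in advance and Staller moves first, then Dominator wins,
but Staller can force him to pick 7 vertices (although `H` has no perfect matching); (ii) if there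
is one more free vertex, joined to `6`, and Staller moves first, then Staller wins. In the game on the
whole graph Dominator has to begin with `28` by (ii), and then the two copies take 14 more moves by
(i).
-/

set_option autoImplicit false

namespace Pool.Agent.Helper80.MB.Final

open H95.MB Pool.Agent.Helper80.MB

/-- the Maker-Breaker domination number: the least `m` such that Dominator, moving first, can make
the set of his vertices dominating within `m` moves (`⊤` if there is no such `m`) -/
noncomputable def gammaMB {V : Type} [Fintype V] [DecidableEq V] (G : SimpleGraph V) : ℕ∞ :=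
  sInf {k : ℕ∞ | ∃ m : ℕ, k = m ∧ WinsIn G m ∅ ∅}

/-- the parents in a spanning tree -/
def par (v : Fin 29) : Fin 29 :=
  ([7, 13, 9, 9, 6, 11, 28, 4, 3, 4, 0, 0, 0, 2, 21, 27, 23, 23, 20, 25, 28, 18, 17, 18, 14, 14, 14, 16, 28] : List (Fin 29)).getD v 0

theorem connected : GG.Connected := by
  have h1 : ∀ v : Fin 29, v ≠ 28 → v ≠ par v ∧ (N v).testBit (par v) = true := by decide +kernel
  have h2 : ∀ v : Fin 29, par^[10] v = 28 := by decide +kernel
  have h3 : ∀ v : Fin 29, GG.Reachable v (par v) := by
    intro v
    by_cases hv : v = 28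
    · have : par 28 = 28 := by decide +kernel
      rw [hv, this]
    · exact SimpleGraph.Adj.reachable (G := GG) (h1 v hv)
  have h4 : ∀ (n : ℕ) (v : Fin 29), GG.Reachable v (par^[n] v) := by
    intro n
    induction n with
    | zero => intro v; exact SimpleGraph.Reachable.refl v
    | succ n ih =>
      intro v
      rw [Function.iterate_succ_apply']
      exact (ih v).trans (h3 _)
  have h5 : ∀ v : Fin 29, GG.Reachable v 28 := fun v => by
    have := h4 10 v
    rwa [h2 v] at this
  exact ⟨fun v w => (h5 v).trans (h5 w).symm⟩

theorem winsIn_mono {V : Type} [Fintype V] [DecidableEq V] {G : SimpleGraph V} :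
    ∀ (k : ℕ) (D S : Finset V), WinsIn G k D S → WinsIn G (k + 1) D S := by
  intro k
  induction k with
  | zero => intro D S h; exact Or.inl h
  | succ k ih =>
    intro D S h
    rcases h with h | ⟨v, hv, hvS, h⟩
    · exact Or.inl h
    · refine Or.inr ⟨v, hv, hvS, ?_⟩
      rcases h with h | ⟨hw, h⟩
      · exact Or.inl h
      · exact Or.inr ⟨hw, fun w h1 h2 => ih _ _ (h w h1 h2)⟩

theorem upper : WinsIn GG 15 ∅ ∅ := by
  have hA := (cB0.sound 16383 16319 0 okB0.2 (by decide +kernel)).1 okB0.1
  have hB := (cB1.sound 268419072 267370496 0 okB1.2 (by decide +kernel)).1 okB1.1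
  refine Or.inr ⟨28, by simp, by simp, ?_⟩
  exact BB.round isNb 14 ∅ (insert 28 ∅) _ _ _ _ hA hB (by decide +kernel) (by decide +kernel)
    (by decide +kernel) (by decide +kernel) (by decide +kernel) (by simp) (by simp)
    (by decide +kernel) (by decide +kernel) (by decide +kernel)

theorem lower : ¬ WinsIn GG 14 ∅ ∅ := by
  intro h
  rcases winsIn_succ h with h | ⟨v, -, -, h⟩
  · exact not_dom isNb (u := 0) (Finset.subset_univ _) (Finset.disjoint_empty_right _) h
  by_cases hv : v = 28
  · subst hv
    have hA := (cT0.sound 0 16383 0 okT0.2).1 okT0.1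
    have hB := (cT1.sound 0 268419072 0 okT1.2).1 okT1.1
    rw [fs_zero] at hA hB
    exact TT.sound isNb 13 ∅ (insert 28 ∅) _ _ hA hB (by decide +kernel) (by decide +kernel)
      (by decide +kernel) (by simp) (by simp) (by simp) (by decide +kernel) h
  · have hv2 : ∀ v : Fin 29, v ≠ 28 → v ∉ fs 268451839 ∨ v ∉ fs 536854528 := by decide +kernel
    rcases hv2 v hv with h1 | h1
    · have hs := fs_sub okM0.2.2
      have hM := cM0.sound 0 okM0.1 v (by rw [okM0.2.1]; exact fun h => h1 (hs h))
      have hM2 : MW nb ∅ (fs 268451839) := by
        rw [fs_zero] at hM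
        exact hM.mono le_rfl ((Finset.erase_subset _ _).trans hs)
      refine hM2.sound isNb 13 (insert v ∅) ?_ (by simp) (by simp) h
      rw [Finset.disjoint_insert_right]
      exact ⟨h1, by simp⟩
    · have hs := fs_sub okM1.2.2
      have hM := cM1.sound 0 okM1.1 v (by rw [okM1.2.1]; exact fun h => h1 (hs h))
      have hM2 : MW nb ∅ (fs 536854528) := by
        rw [fs_zero] at hM
        exact hM.mono le_rfl ((Finset.erase_subset _ _).trans hs)
      refine hM2.sound isNb 13 (insert v ∅) ?_ (by simp) (by simp) h
      rw [Finset.disjoint_insert_right]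
      exact ⟨h1, by simp⟩

/-- There is a connected graph of odd order `n ≥ 3` with Maker-Breaker domination number
`(n + 1) / 2`. -/
theorem result : ∃ (n : ℕ) (G : SimpleGraph (Fin n)), 3 ≤ n ∧ Odd n ∧ G.Connected ∧
    gammaMB G = (((n + 1) / 2 : ℕ) : ℕ∞) := by
  refine ⟨29, GG, by norm_num, by decide, connected, ?_⟩
  have hlow : ∀ m : ℕ, WinsIn GG m ∅ ∅ → 15 ≤ m := by
    intro m hm
    by_contra hlt
    have : ∀ j : ℕ, WinsIn GG (m + j) ∅ ∅ := by
      intro j
      induction j with
      | zero => exact hm
      | succ j ih => exact winsIn_mono _ _ _ ih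
    have h := this (14 - m)
    rw [show m + (14 - m) = 14 by omega] at h
    exact lower h
  apply le_antisymm
  · exact sInf_le ⟨15, rfl, upper⟩
  · refine le_sInf ?_
    rintro k ⟨m, rfl, hm⟩
    exact_mod_cast hlow m hm

end Pool.Agent.Helper80.MB.Final
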